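import Pool.Agent.W279.TriS.Defs
import Pool.Agent.W279.TriR.Two

/-!
# Real components and p-adic points on triquadratic surfaces: statements (project KR, helper452)

`OL`, `Fill`, `StmtRecur`, `StmtRel`, `StmtClose`, `StmtPadic` are in `W279/TriS/Defs.lean` (all of
them are proved, see the imports of `Results/MP_ed3816_nt/WeakApproxTriquadratic.lean`); `RO` is in
`W279/TriR/Two.lean`; `Rr`, `br`, `G`, `Pv`, `Orb`, `Orb2`, `Sm` in `W279/Tri`.
-/

set_option autoImplicit false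

namespace Pool.Agent.N452.KR

open Pool.Agent.W279.Tri Pool.Agent.W279.TriS Pool.Agent.W279.TriR

/-- a multiple of the image of `X` in `L v` lies in `N v`, for all `v` -/
def In {K ι : Type} [Field K] {L : ι → Type} [∀ v, Field (L v)] (τ : ∀ v, K →+* L v)
    (N : ∀ v, Set (Fin 2 → L v)) (X : Fin 2 → K) : Prop :=
  ∀ v, ∃ a : L v, a ≠ 0 ∧ (fun i => a * τ v (X i)) ∈ N v

/-- **KR1** (one prime): if the translation by `w` is close to the identity, then for all `B` the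
invariants of all translations by multiples of `p ^ N * w` are at least `B`, for some `N`. -/
def SMult : Prop :=
  ∀ (p : ℕ) [Fact p.Prime] (g : Fin 3 → Fin 3 → ℚ_[p]) (u v : ℕ → Fin 2 → ℚ_[p]),
    OL g u v → Sm g → ∃ D : ℝ, ∀ w : ℕ, w ≠ 0 → D ≤ ‖Rr g (u 0) (v 0) (u w) (v w)‖ →
      ∀ B : ℝ, ∃ N : ℕ, ∀ j : ℕ, j ≠ 0 →
        B ≤ ‖Rr g (u 0) (v 0) (u (p ^ N * w * j)) (v (p ^ N * w * j))‖

/-- **KR2** (finitely many primes): a progression `b * j` of indices such that the points number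
`b * j` of the orbit are as close to the initial point as we want, at all the places `v`. -/
def SOrb : Prop :=
  ∀ (K : Type) [Field K] (g : Fin 3 → Fin 3 → K) (U V : ℕ → Fin 2 → K), Orb2 g U V →
    ∀ (ι : Type) [Finite ι] (p : ι → ℕ) [∀ v, Fact (p v).Prime] (τ : ∀ v, K →+* ℚ_[p v]),
      (∀ v, Sm (fun j k => τ v (g j k))) →
      ∀ N₁ N₂ : ∀ v, Set (Fin 2 → ℚ_[p v]), (∀ v, IsOpen (N₁ v)) → (∀ v, IsOpen (N₂ v)) →
        In τ N₁ (U 0) → In τ N₂ (V 0) →
        ∃ b : ℕ, b ≠ 0 ∧ ∀ j : ℕ, In τ N₁ (U (b * j)) ∧ In τ N₂ (V (b * j))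

/-- **KR3**: the points number `b * n` of an orbit are an orbit over the real numbers. -/
def SReal : Prop :=
  ∀ (K : Type) [Field K] (g : Fin 3 → Fin 3 → K) (U V : ℕ → Fin 2 → K), Orb2 g U V →
    ∀ σ : K →+* ℝ, Sm (fun j k => σ (g j k)) → ∀ b : ℕ, b ≠ 0 →
      RO (fun j k => σ (g j k)) (fun n a => σ (U (b * n) a)) (fun n a => σ (V (b * n) a))

end Pool.Agent.N452.KR
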