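import Pool.Agent.N452.KR.Defs
import Pool.Agent.W279.TriS.Basic
import Pool.Agent.W347.SA.Rel
import Pool.Agent.W125.SA.Close
import Pool.Agent.W493.SA.Seq
import Pool.Agent.W554.SA.Padic

/-!
KR1 (helper271): invariants of the multiples of `p ^ N * w`.
-/

set_option autoImplicit false

namespace Pool.Agent.N452.KR

open Pool.Agent.W279.Tri Pool.Agent.W279.TriS Filter Topology

namespace L1

lemma br_ne {K : Type*} [Field K] {g : Fin 3 → Fin 3 → K} {ξ η e : Fin 2 → K} (hη : η ≠ 0)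
    (h0 : G g ξ η = 0) (h : Pv g ξ η e ≠ 0) : br η e ≠ 0 := by
  intro hb
  apply h
  rcases eq_or_ne e 0 with rfl | he
  · have := G_smul_right g (0 : K) ξ (0 : Fin 2 → K)
    rw [zero_smul] at this
    unfold Pv
    rw [add_zero, h0, this]
    ring
  · obtain ⟨t, -, rfl⟩ := (br_eq_zero_iff hη he).1 hb
    have e1 : η + t • η = (1 + t) • η := by rw [add_smul, one_smul]
    unfold Pv
    rw [e1, G_smul_right, G_smul_right, h0]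
    ring

lemma hh_zero {K : Type*} [Field K] (g : Fin 3 → Fin 3 → K) (ξ ξ' η η' : Fin 2 → K) :
    hh (fm g ξ ξ' η η') 0 0 0 = Pv g ξ η η' := by
  simp [hh, co, fm, fr]

lemma hh_lower {K : Type*} [NontriviallyNormedField K] (m : Fin 3 → Fin 3 → K)
    (h : hh m 0 0 0 ≠ 0) : ∃ δ : ℝ, 0 < δ ∧ ∀ t s s' : K, ‖t‖ ≤ δ → ‖s‖ ≤ δ → ‖s'‖ ≤ δ →
      ‖hh m 0 0 0‖ / 2 ≤ ‖hh m t s s'‖ := by
  have hc : Continuous (fun q : K × K × K => ‖hh m q.1 q.2.1 q.2.2‖) := by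
    unfold hh co
    fun_prop
  have h1 : ∀ᶠ q : K × K × K in 𝓝 0, ‖hh m 0 0 0‖ / 2 < ‖hh m q.1 q.2.1 q.2.2‖ := by
    have h2 : ContinuousAt (fun q : K × K × K => ‖hh m q.1 q.2.1 q.2.2‖) 0 := hc.continuousAt
    refine h2.eventually (lt_mem_nhds ?_)
    change ‖hh m 0 0 0‖ / 2 < ‖hh m 0 0 0‖
    have := norm_pos_iff.2 h
    linarith
  obtain ⟨ε, hε, h3⟩ := Metric.eventually_nhds_iff.1 h1
  refine ⟨ε / 2, by positivity, fun t s s' ht hs hs' => ?_⟩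
  have h4 : dist ((t, s, s') : K × K × K) 0 < ε := by
    rw [dist_zero_right]
    simp only [Prod.norm_mk]
    refine max_lt (by linarith) (max_lt (by linarith) (by linarith))
  exact (h3 h4).le

lemma first (p : ℕ) [Fact p.Prime] (g : Fin 3 → Fin 3 → ℚ_[p]) (u v : ℕ → Fin 2 → ℚ_[p])
    (h : OL g u v) (hs : Sm g) (e : Fin 2 → ℚ_[p]) (he : Pv g (u 0) (v 0) e ≠ 0) :
    ∃ D : ℝ, ∀ w : ℕ, w ≠ 0 → D ≤ ‖Rr g (u 0) (v 0) (u w) (v w)‖ →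
      ∀ B : ℝ, ∃ N : ℕ, ∀ j : ℕ, j ≠ 0 →
        B ≤ ‖Rr g (u 0) (v 0) (u (p ^ N * w * j)) (v (p ^ N * w * j))‖ := by
  have hrel : StmtRel := Pool.Agent.W347.SA.main
  have hpad : StmtPadic := Pool.Agent.W554.SA.main Pool.Agent.W347.SA.main
    Pool.Agent.W125.SA.Close.main Pool.Agent.W493.SA.Seq.main
  have hbe : br (v 0) e ≠ 0 := br_ne (h.hv0 0) (h.G0 0) he
  obtain ⟨ξ', hξ'⟩ := exists_br_ne (h.hu0 0)
  have hh0 : hh (fm g (u 0) ξ' (v 0) e) 0 0 0 ≠ 0 := by rw [hh_zero]; exact he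
  obtain ⟨δ₀, hδ₀, hlow⟩ := hh_lower _ hh0
  set h0 := ‖hh (fm g (u 0) ξ' (v 0) e) 0 0 0‖ / 2 with hh0def
  have h0pos : 0 < h0 := by
    have := norm_pos_iff.2 hh0
    positivity
  obtain ⟨δ, ε₁, D, hδ, hε₁, hfill⟩ := hpad p g (u 0) ξ' (v 0) e hξ' hbe (h.G0 0) he δ₀ hδ₀
  refine ⟨D, fun w hw hD B => ?_⟩
  obtain ⟨κ, hκ, hf⟩ := hfill ‖Rr g (u 0) (v 0) (u w) (v w)‖
  set β := br (u 0) ξ' * br (v 0) e with hβ
  have hβ0 : 0 < ‖β‖ := norm_pos_iff.2 (mul_ne_zero hξ' hbe)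
  set Bp := max B 1 with hBp
  have hBp0 : 0 < Bp := lt_of_lt_of_le one_pos (le_max_right _ _)
  set ε := min (min 1 δ₀) (h0 ^ 2 / (4 * ‖β‖ ^ 2 * Bp)) with hεd
  have hε : 0 < ε := by positivity
  have hε1 : ε ≤ 1 := (min_le_left _ _).trans (min_le_left _ _)
  have hεδ : ε ≤ δ₀ := (min_le_left _ _).trans (min_le_right _ _)
  have hεh : ε ≤ h0 ^ 2 / (4 * ‖β‖ ^ 2 * Bp) := min_le_right _ _
  have hεh' : Bp * (4 * ε ^ 2 * ‖β‖ ^ 2) ≤ h0 ^ 2 := by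
    rw [le_div_iff₀ (by positivity)] at hεh
    have : ε ^ 2 ≤ ε := by nlinarith
    calc Bp * (4 * ε ^ 2 * ‖β‖ ^ 2) ≤ Bp * (4 * ε * ‖β‖ ^ 2) := by gcongr
      _ = ε * (4 * ‖β‖ ^ 2 * Bp) := by ring
      _ ≤ h0 ^ 2 := hεh
  have hbig := hf g (by simpa using hε₁.le) hs u v h 0 w 0 0 hw
    ⟨At.zero _ _, At.zero _ _⟩ (by simpa using hδ.le) (by simpa using hδ.le) hD le_rfl 0
    (by simpa using hκ.le) ε hε
  have hp : p ≠ 0 := (Fact.out : p.Prime).ne_zero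
  unfold Big at hbig
  rw [if_neg hp] at hbig
  obtain ⟨N, c, hc⟩ := hbig
  refine ⟨N, fun j hj => ?_⟩
  obtain ⟨t, s, hts, ht, hs1⟩ := hc c (Nat.ModEq.refl _)
  obtain ⟨t', s', hts', ht', hs1'⟩ := hc (c + p ^ N * j) (by simp [Nat.ModEq])
  have hidx : 0 + (c + p ^ N * j) * w = (0 + c * w) + p ^ N * w * j := by ring
  have hm0 : p ^ N * w * j ≠ 0 := mul_ne_zero (mul_ne_zero (pow_ne_zero _ hp) hw) hj
  rw [hidx] at hts'
  have hne : 0 + c * w ≠ 0 + c * w + p ^ N * w * j := by omega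
  obtain ⟨-, -, hR⟩ := hrel ℚ_[p] g (u 0) ξ' (v 0) e _ _ _ _ t s t' s' hts.1 hts.2 hts'.1 hts'.2
    (h.G0 _) (h.G0 _) (h.hdu _ _ hne) (h.hdv _ _ hne)
  rw [h.inv _ _ hm0] at hR
  rw [sub_zero] at ht ht'
  have hl1 := hlow t s s' (ht.trans hεδ) hs1 hs1'
  have hl2 := hlow t' s s' (ht'.trans hεδ) hs1 hs1'
  have hn := congrArg norm hR
  rw [norm_neg, Ph, norm_mul, norm_mul, norm_mul, norm_pow, norm_pow] at hn
  have htt : ‖t - t'‖ ≤ 2 * ε := by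
    have := norm_sub_le t t'
    linarith
  have htt2 : ‖t - t'‖ ^ 2 ≤ 4 * ε ^ 2 := by
    have := pow_le_pow_left₀ (norm_nonneg _) htt 2
    linarith
  have hge : h0 ^ 2 ≤ ‖Rr g (u 0) (v 0) (u (p ^ N * w * j)) (v (p ^ N * w * j))‖ *
      (‖t - t'‖ ^ 2 * ‖β‖ ^ 2) := by
    rw [hn, sq]
    exact mul_le_mul hl1 hl2 h0pos.le (norm_nonneg _)
  by_contra hlt
  rw [not_le] at hlt
  have hlt' : ‖Rr g (u 0) (v 0) (u (p ^ N * w * j)) (v (p ^ N * w * j))‖ < Bp :=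
    lt_of_lt_of_le hlt (le_max_left _ _)
  have h5 : ‖Rr g (u 0) (v 0) (u (p ^ N * w * j)) (v (p ^ N * w * j))‖ *
      (‖t - t'‖ ^ 2 * ‖β‖ ^ 2) ≤ ‖Rr g (u 0) (v 0) (u (p ^ N * w * j)) (v (p ^ N * w * j))‖ *
      (4 * ε ^ 2 * ‖β‖ ^ 2) := by gcongr
  have h6 : ‖Rr g (u 0) (v 0) (u (p ^ N * w * j)) (v (p ^ N * w * j))‖ *
      (4 * ε ^ 2 * ‖β‖ ^ 2) < Bp * (4 * ε ^ 2 * ‖β‖ ^ 2) :=
    mul_lt_mul_of_pos_right hlt' (by positivity)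
  linarith

end L1

theorem smult : SMult := by
  intro p _ g u v h hs
  rcases hs (u 0) (v 0) (h.hu0 0) (h.hv0 0) (h.G0 0) with ⟨e, he⟩ | ⟨e, he⟩
  · exact L1.first p g u v h hs e he
  · obtain ⟨D, hD⟩ := L1.first p (fun j k => g k j) v u h.transpose hs.transpose e he
    refine ⟨D, fun w hw hDw B => ?_⟩
    obtain ⟨N, hN⟩ := hD w hw (by rw [Rr_transpose]; exact hDw) B
    refine ⟨N, fun j hj => ?_⟩
    have := hN j hj
    rw [Rr_transpose] at this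
    exact this

end Pool.Agent.N452.KR
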