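import Pool.Agent.N452.KR.Defs
import Pool.Agent.W335.SA.Recur
import Pool.Agent.W125.SA.Close
import Pool.Agent.W279.TriS.Basic

/-!
# Project KR, leaf 2: finitely many primes (helper887)
-/

set_option autoImplicit false

namespace Pool.Agent.N452.KR

open Pool.Agent.W279.Tri Pool.Agent.W279.TriS Pool.Agent.W279.TriR Filter Topology

namespace L2

/-- a vector which is not proportional to `u` -/
theorem exists_br {L : Type} [Field L] {u : Fin 2 → L} (hu : u ≠ 0) :
    ∃ w : Fin 2 → L, br u w ≠ 0 := by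
  by_contra hcon
  push Not at hcon
  apply hu
  have h1 := hcon ![0, 1]
  have h2 := hcon ![1, 0]
  simp only [br, Matrix.cons_val_zero, Matrix.cons_val_one, mul_one, mul_zero, sub_zero, zero_sub,
    neg_eq_zero] at h1 h2
  funext i
  fin_cases i
  · exact h1
  · exact h2

/-- small coordinates give a representative in an open set -/
theorem near {L : Type} [NontriviallyNormedField L] {N : Set (Fin 2 → L)} (hN : IsOpen N)
    {a : L} (ha : a ≠ 0) {ξ : Fin 2 → L} (hξ : (fun i => a * ξ i) ∈ N) (ξ' : Fin 2 → L) :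
    ∃ ε : ℝ, 0 < ε ∧ ε ≤ 1 ∧ ∀ (u : Fin 2 → L) (t : L), At ξ ξ' u t → ‖t‖ ≤ ε →
      ∃ c : L, c ≠ 0 ∧ (fun i => c * u i) ∈ N := by
  have hc : Continuous fun (t : L) (i : Fin 2) => a * (ξ i + t * ξ' i) := by fun_prop
  have hmem : (fun i => a * (ξ i + (0 : L) * ξ' i)) ∈ N := by
    simp only [zero_mul, add_zero]
    exact hξ
  have hpre := hc.continuousAt.preimage_mem_nhds (x := 0) (hN.mem_nhds hmem)
  obtain ⟨δ, hδ, hball⟩ := Metric.mem_nhds_iff.1 hpre
  refine ⟨min (δ / 2) 1, lt_min (by linarith) one_pos, min_le_right _ _, ?_⟩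
  rintro u t ⟨d, hd, rfl⟩ ht
  refine ⟨a * d⁻¹, mul_ne_zero ha (inv_ne_zero hd), ?_⟩
  have ht' : t ∈ Metric.ball (0 : L) δ := by
    rw [mem_ball_zero_iff]
    have := ht.trans (min_le_left _ _)
    linarith
  have e : (fun i => a * d⁻¹ * (d • (ξ + t • ξ')) i) = fun i => a * (ξ i + t * ξ' i) := by
    funext i
    simp only [Pi.smul_apply, Pi.add_apply, smul_eq_mul]
    field_simp
  rw [e]
  exact hball ht'

end L2

open L2 in
/-- **KR2** (finitely many primes) -/
theorem sorb (h1 : SMult) : SOrb := by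
  classical
  intro K _ g U V hO ι _ p _ τ hSm N₁ N₂ hN1 hN2 hU hV
  have : Fintype ι := Fintype.ofFinite ι
  have hOL : ∀ v, OL (fun j k => τ v (g j k)) (fun n a => τ v (U n a))
      (fun n a => τ v (V n a)) := fun v => OL.of_orb2 hO (τ v)
  choose D hD using fun v => h1 (p v) (fun j k => τ v (g j k)) (fun n a => τ v (U n a))
    (fun n a => τ v (V n a)) (hOL v) (hSm v)
  obtain ⟨w, hw, hwD⟩ := exists_large Pool.W335.SA.main (fun v => fun j k => τ v (g j k))
    (fun v n a => τ v (U n a)) (fun v n a => τ v (V n a)) hOL hSm D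
  choose ξ' hξ' using fun v => exists_br ((hOL v).hu0 0)
  choose η' hη' using fun v => exists_br ((hOL v).hv0 0)
  choose a ha haN using hU
  choose b hb hbN using hV
  choose ε₁ he1 he1' hn1 using fun v => near (hN1 v) (ha v) (haN v) (ξ' v)
  choose ε₂ he2 he2' hn2 using fun v => near (hN2 v) (hb v) (hbN v) (η' v)
  choose Dc hDc hcl using fun v => Pool.Agent.W125.SA.Close.main ℚ_[p v]
    ‖(fun j k => τ v (g j k) : Fin 3 → Fin 3 → ℚ_[p v])‖ _ (ξ' v) _ (η' v) (hξ' v) (hη' v)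
  choose N hN using fun v => hD v w hw (hwD v) ((Dc v / min (ε₁ v) (ε₂ v)) ^ 2)
  refine ⟨w * ∏ v, p v ^ N v, mul_ne_zero hw (Finset.prod_ne_zero_iff.2 fun v _ =>
    pow_ne_zero _ (Fact.out : (p v).Prime).ne_zero), fun j => ?_⟩
  rcases eq_or_ne j 0 with rfl | hj
  · rw [mul_zero]
    exact ⟨fun v => ⟨a v, ha v, haN v⟩, fun v => ⟨b v, hb v, hbN v⟩⟩
  · have key : ∀ v, (∃ c : ℚ_[p v], c ≠ 0 ∧
        (fun i => c * τ v (U (w * (∏ v, p v ^ N v) * j) i)) ∈ N₁ v) ∧
        ∃ c : ℚ_[p v], c ≠ 0 ∧ (fun i => c * τ v (V (w * (∏ v, p v ^ N v) * j) i)) ∈ N₂ v := by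
      intro v
      have hP : p v ^ N v * ∏ x ∈ Finset.univ.erase v, p x ^ N x = ∏ v, p v ^ N v :=
        Finset.mul_prod_erase _ (fun x => p x ^ N x) (Finset.mem_univ v)
      have hQ0 : ∏ x ∈ Finset.univ.erase v, p x ^ N x ≠ 0 := Finset.prod_ne_zero_iff.2 fun x _ =>
        pow_ne_zero _ (Fact.out : (p x).Prime).ne_zero
      have hm : w * (∏ v, p v ^ N v) * j =
          p v ^ N v * w * ((∏ x ∈ Finset.univ.erase v, p x ^ N x) * j) := by
        rw [← hP]
        ring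
      have hR := hN v _ (mul_ne_zero hQ0 hj)
      rw [← hm] at hR
      have hm0 : 0 ≠ w * (∏ v, p v ^ N v) * j := by
        refine (mul_ne_zero (mul_ne_zero hw (Finset.prod_ne_zero_iff.2 fun v _ =>
          pow_ne_zero _ (Fact.out : (p v).Prime).ne_zero)) hj).symm
      obtain ⟨t', s', hAt, hAs, ht, hs⟩ := hcl v (fun j k => τ v (g j k)) le_rfl _ _ _ _
        ((hOL v).hu0 0) ((hOL v).hv0 0) ((hOL v).hu0 _) ((hOL v).hv0 _) ((hOL v).G0 0)
        ((hOL v).G0 _) ((hOL v).hdu 0 _ hm0) ((hOL v).hdv 0 _ hm0) 0 0 (At.zero _ _)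
        (At.zero _ _) (by rw [norm_zero]; exact zero_le_one) (by rw [norm_zero]; exact zero_le_one)
        (min (ε₁ v) (ε₂ v)) (lt_min (he1 v) (he2 v)) ((min_le_left _ _).trans (he1' v)) hR
      rw [sub_zero] at ht hs
      exact ⟨hn1 v _ t' hAt (ht.trans (min_le_left _ _)),
        hn2 v _ s' hAs (hs.trans (min_le_right _ _))⟩
    exact ⟨fun v => (key v).1, fun v => (key v).2⟩

end Pool.Agent.N452.KR
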