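import Pool.Agent.N452.KR.Defs
import Pool.Agent.W335.SA.Recur
import Pool.Agent.W279.TriR.Fill

/-! KR/3: the points number `b * n` of an orbit are an orbit over the real numbers (helper555). -/

set_option autoImplicit false

namespace Pool.Agent.N452.KR

open Pool.Agent.W279.Tri Pool.Agent.W279.TriS Pool.Agent.W279.TriR

/-- progressions of a real orbit -/
theorem ro_mul {g : Fin 3 → Fin 3 → ℝ} {u v : ℕ → Fin 2 → ℝ} (h : RO g u v) (hsm : Sm g) {b : ℕ}
    (hb : b ≠ 0) : RO g (fun n => u (b * n)) (fun n => v (b * n)) where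
  hu0 n := h.hu0 _
  hv0 n := h.hv0 _
  G0 n := h.G0 _
  hdu n m hnm := h.hdu _ _ fun e => hnm (Nat.eq_of_mul_eq_mul_left (Nat.pos_of_ne_zero hb) e)
  hdv n m hnm := h.hdv _ _ fun e => hnm (Nat.eq_of_mul_eq_mul_left (Nat.pos_of_ne_zero hb) e)
  inv n m hm := by
    have := h.inv (b * n) (b * m) (mul_ne_zero hb hm)
    rw [← mul_add] at this
    simpa only [mul_zero] using this
  recu n ε hε M := by
    obtain ⟨C, hC, hup⟩ := Rr_upper g
    have hOL : OL g u v := ⟨h.hu0, h.hv0, h.G0, h.hdu, h.hdv, h.inv⟩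
    have hφ : StrictMono fun i : ℕ => b * i := fun i j hij =>
      Nat.mul_lt_mul_of_pos_left hij (Nat.pos_of_ne_zero hb)
    obtain ⟨ψ, hψ, hbig⟩ := Pool.W335.SA.main ℝ g u v hOL hsm ((C / ε) ^ 2) (fun i => b * i) hφ
    set j := max M 1 with hj
    have hjM : M ≤ j := le_max_left _ _
    have hj1 : 1 ≤ j := le_max_right _ _
    have hle : j + ψ 0 ≤ ψ (j + 0) := hψ.add_le_nat j 0
    rw [add_zero] at hle
    obtain ⟨m, hm⟩ := Nat.exists_eq_add_of_le (show ψ 0 ≤ ψ j by omega)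
    have hm0 : m ≠ 0 := by omega
    have hbm : b * m ≠ 0 := mul_ne_zero hb hm0
    have h1 := hbig 0 j (by omega)
    simp only [hm, mul_add] at h1
    rw [h.inv' (b * ψ 0) hbm (b * n)] at h1
    have hne : b * n ≠ b * n + b * m := by omega
    obtain ⟨h2, h3⟩ := hup _ _ _ _ (h.hu0 (b * n)) (h.hv0 (b * n)) (h.hu0 (b * n + b * m))
      (h.hv0 (b * n + b * m)) (h.G0 (b * n)) (h.G0 (b * n + b * m)) (h.hdu _ _ hne)
      (h.hdv _ _ hne) ε hε h1
    refine ⟨m, by omega, ?_, ?_⟩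
    · simpa only [mul_add] using h2
    · simpa only [mul_add] using h3

/-- **KR3** -/
theorem sreal : SReal := by
  intro K _ g U V hO σ hsm b hb
  exact ro_mul (RO.of_orb2 hO σ hsm) hsm hb

end Pool.Agent.N452.KR
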