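import Pool.Agent.N452.KR.Glob
import Pool.Agent.N452.KR.L1
import Pool.Agent.N452.KR.L2
import Pool.Agent.N452.KR.L3
import Pool.Agent.Results.MP_ed3816_nt.WeakApproxTriquadratic

/-!
# From the cone to `ClN` (project KR, helper452)
-/

set_option autoImplicit false

namespace Pool.Agent.N452.KR

open Pool.Agent.W279.Tri Pool.Agent.W279.TriR MvPolynomial
open Pool.Agent.Results.MP_ed3816_nt.WeakApproxTriquadratic (ratPoints)

/-- the cone over the smooth real points of `F = 0` -/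
def cone' {K : Type} [Field K] (F : MvPolynomial (Fin 3 × Fin 2) K) (σ : K →+* ℝ) :
    Set (Fin 3 → Fin 2 → ℝ) :=
  {x | (∀ j, x j ≠ 0) ∧ eval₂ σ (fun r : Fin 3 × Fin 2 => x r.1 r.2) F = 0 ∧
    ∃ r, eval₂ σ (fun q : Fin 3 × Fin 2 => x q.1 q.2) (pderiv r F) ≠ 0}

lemma cone'_form {K : Type} [Field K] (c : Fin 3 → Fin 3 → Fin 3 → K) (σ : K →+* ℝ) :
    cone' (form c) σ = SS (cr c σ) := by
  ext x
  unfold cone' SS
  simp only [Set.mem_ofPred_eq]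
  rw [eval₂_cr, singX_real, not_forall]

variable {K : Type} [Field K] {ι : Type} {p : ι → ℕ} [∀ v, Fact (p v).Prime]
  {τ : ∀ v, K →+* ℚ_[p v]} {σ : K →+* ℝ} {c : Fin 3 → Fin 3 → Fin 3 → K}

lemma mem_ClN_of_closure [Finite ι] {x : Fin 3 → Fin 2 → ℝ} {y : ∀ v, Fin 3 → Fin 2 → ℚ_[p v]}
    (h : (x, y) ∈ closure (ratPoints (form c) p σ τ)) : x ∈ ClN c σ τ (fun j v => y v j) := by
  intro W hW N hN
  have hV : {z : ∀ v, Fin 3 → Fin 2 → ℚ_[p v] | ∀ v j, z v j ∈ N j v} ∈ nhds y := by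
    have h1 : ∀ v j, ∀ᶠ z : ∀ v, Fin 3 → Fin 2 → ℚ_[p v] in nhds y, z v j ∈ N j v := by
      intro v j
      have hc : Continuous fun z : ∀ v, Fin 3 → Fin 2 → ℚ_[p v] => z v j := by fun_prop
      exact hc.continuousAt.preimage_mem_nhds ((hN j v).1.mem_nhds (hN j v).2)
    exact Filter.eventually_all.2 fun v => Filter.eventually_all.2 fun j => h1 v j
  obtain ⟨⟨x', y'⟩, ⟨hx', hy'⟩, Y, hY0, hYE, ⟨d, hd, hdx⟩, hdy⟩ :=
    mem_closure_iff_nhds.1 h _ (prod_mem_nhds hW hV)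
  refine ⟨Y, ⟨hY0, ?_, d, hd, ?_⟩, fun j v => ?_⟩
  · have h5 := hYE
    rw [eval_form] at h5
    exact h5
  · have : x' = fun i a => d i * σ (Y i a) := hdx
    rw [← this]
    exact hx'
  · obtain ⟨e, he, hey⟩ := hdy v
    refine ⟨e j, he j, ?_⟩
    have h2 : y' v = fun j a => e j * τ v (Y j a) := hey
    have h3 : y' v j ∈ N j v := hy' v j
    rw [h2] at h3
    exact h3

lemma closure_of_mem_ClN [Finite ι] {x : Fin 3 → Fin 2 → ℝ} {y : ∀ v, Fin 3 → Fin 2 → ℚ_[p v]}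
    (h : x ∈ ClN c σ τ (fun j v => y v j)) : (x, y) ∈ closure (ratPoints (form c) p σ τ) := by
  classical
  have := Fintype.ofFinite ι
  rw [mem_closure_iff_nhds]
  intro t ht
  obtain ⟨W, hW, V, hV, hWV⟩ := mem_nhds_prod_iff.1 ht
  obtain ⟨ε, hε, hball⟩ := Metric.mem_nhds_iff.1 hV
  obtain ⟨Y, ⟨hY0, hYE, d, hd, hdW⟩, hYN⟩ := h W hW (fun j v => Metric.ball (y v j) ε)
    (fun j v => ⟨Metric.isOpen_ball, Metric.mem_ball_self hε⟩)
  choose e he heN using hYN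
  refine ⟨(fun i a => d i * σ (Y i a), fun v j a => e j v * τ v (Y j a)), hWV ⟨hdW, hball ?_⟩,
    Y, hY0, ?_, ⟨d, hd, rfl⟩, fun v => ⟨fun j => e j v, fun j => he j v, rfl⟩⟩
  · rw [Metric.mem_ball, dist_pi_lt_iff hε]
    intro v
    rw [dist_pi_lt_iff hε]
    intro j
    exact heN j v
  · rw [eval_form]
    exact hYE

/-- **The main theorem of project KR.** -/
theorem main [NumberField K] (h : Nice c) :
    ∃ T : Set (Fin 3 → Fin 2 → K), T.Finite ∧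
      (∀ P ∈ T, (∀ i, P i ≠ 0) ∧ E c (P 0) (P 1) (P 2) = 0) ∧
      ∀ (σ : K →+* ℝ) (ι : Type) [Finite ι] (p : ι → ℕ) [∀ v, Fact (p v).Prime]
        (τ : ∀ v, K →+* ℚ_[p v]) (x : Fin 3 → Fin 2 → ℝ) (y : ∀ v, Fin 3 → Fin 2 → ℚ_[p v]),
        (x, y) ∈ closure (ratPoints (form c) p σ τ) → x ∈ cone' (form c) σ →
        (∀ v j, y v j ≠ 0) →
        (∃ P ∈ T, (∀ j, ∃ t : ℝ, t ≠ 0 ∧ x j = t • fun a => σ (P j a)) ∧
          ∀ v j, ∃ t : ℚ_[p v], t ≠ 0 ∧ y v j = t • fun a => τ v (P j a)) ∨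
        ∀ x' ∈ connectedComponentIn (cone' (form c) σ) x,
          (x', y) ∈ closure (ratPoints (form c) p σ τ) := by
  have hso : SOrb := sorb smult
  obtain ⟨T, hT, hT1, hT2⟩ := dichotomyP hso sreal h
  refine ⟨T, hT, hT1, fun σ ι _ p _ τ x y hxy hx hy => ?_⟩
  have hC := mem_ClN_of_closure hxy
  rw [cone'_form] at hx ⊢
  rcases hT2 σ ι p τ (fun j v => y v j) x (fun j v => hy v j) hx.1 hx.2.1 hx.2.2 hC with
    hI | ⟨P₀, hP₀, ⟨hiso1, hiso2⟩, -⟩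
  · right
    intro x' hx'
    refine closure_of_mem_ClN (component (fun P hP hPC => ?_) hx hI hx')
    rcases hT2 σ ι p τ (fun j v => y v j) P (fun j v => hy v j) hP.1 hP.2.1 hP.2.2 hPC with
      h1 | ⟨Q, -, h1⟩
    · exact Or.inl h1
    · exact Or.inr ⟨Q, h1⟩
  · left
    exact ⟨P₀, hP₀, hiso1, fun v j => hiso2 j v⟩

end Pool.Agent.N452.KR
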