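import Pool.Agent.N452.KR.Open

/-!
# Connected components with fixed p-adic part (project KR, helper452; the real argument is that of
helper279 in `W279/TriR/Glob.lean`, `W279/TriR/Clopen.lean`)
-/

set_option autoImplicit false

namespace Pool.Agent.N452.KR

open Pool.Agent.W279.Tri Pool.Agent.W279.TriR

variable {K : Type} [Field K] {ι : Type} {p : ι → ℕ} [∀ v, Fact (p v).Prime]
  {τ : ∀ v, K →+* ℚ_[p v]}

lemma PtN_rot {c : Fin 3 → Fin 3 → Fin 3 → K} {σ : K →+* ℝ} {W : Set (Fin 3 → Fin 2 → ℝ)}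
    {N : Fin 3 → ∀ v, Set (Fin 2 → ℚ_[p v])} {Y : Fin 3 → Fin 2 → K}
    (h : PtN c σ τ (rp ⁻¹' W) (rp (rp N)) Y) : PtN (rot c) σ τ W N (rp Y) := by
  refine ⟨Pt_rot h.1, fun i => ?_⟩
  fin_cases i
  · exact h.2 2
  · exact h.2 0
  · exact h.2 1

lemma PtN_rot' {c : Fin 3 → Fin 3 → Fin 3 → K} {σ : K →+* ℝ} {W : Set (Fin 3 → Fin 2 → ℝ)}
    {N : Fin 3 → ∀ v, Set (Fin 2 → ℚ_[p v])} {Y : Fin 3 → Fin 2 → K}
    (h : PtN (rot c) σ τ ((fun P => rp (rp P)) ⁻¹' W) (rp N) Y) :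
    PtN c σ τ W N (rp (rp Y)) := by
  refine ⟨Pt_rot' h.1, fun i => ?_⟩
  fin_cases i
  · exact h.2 1
  · exact h.2 2
  · exact h.2 0

lemma NN_rp {y : Fin 3 → ∀ v, Fin 2 → ℚ_[p v]} {N : Fin 3 → ∀ v, Set (Fin 2 → ℚ_[p v])}
    (h : NN y N) : NN (rp y) (rp N) := by
  intro i v
  fin_cases i
  · exact h 2 v
  · exact h 0 v
  · exact h 1 v

lemma ClN_rot {c : Fin 3 → Fin 3 → Fin 3 → K} {σ : K →+* ℝ}
    {y : Fin 3 → ∀ v, Fin 2 → ℚ_[p v]} {P : Fin 3 → Fin 2 → ℝ} :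
    rp P ∈ ClN (rot c) σ τ (rp y) ↔ P ∈ ClN c σ τ y := by
  constructor
  · intro h W hW N hN
    have h1 : (fun P => rp (rp P)) ⁻¹' W ∈ nhds (rp P) := by
      refine (continuous_rp.comp continuous_rp).continuousAt.preimage_mem_nhds ?_
      change W ∈ nhds (rp (rp (rp P)))
      rw [rp3]
      exact hW
    obtain ⟨Y, hY⟩ := h _ h1 (rp N) (NN_rp hN)
    exact ⟨_, PtN_rot' hY⟩
  · intro h W hW N hN
    have h2 : NN y (rp (rp N)) := by
      have := NN_rp (NN_rp hN)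
      rwa [rp3] at this
    obtain ⟨Y, hY⟩ := h (rp ⁻¹' W) (continuous_rp.continuousAt.preimage_mem_nhds hW) _ h2
    exact ⟨_, PtN_rot hY⟩

lemma IntN_rot {c : Fin 3 → Fin 3 → Fin 3 → K} {σ : K →+* ℝ}
    {y : Fin 3 → ∀ v, Fin 2 → ℚ_[p v]} {P : Fin 3 → Fin 2 → ℝ}
    (h : rp P ∈ IntN (rot c) σ τ (rp y)) : P ∈ IntN c σ τ y := by
  obtain ⟨W, hW, h⟩ := h
  refine ⟨rp ⁻¹' W, continuous_rp.continuousAt.preimage_mem_nhds hW, fun Q hQ hE => ?_⟩
  rw [← ClN_rot]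
  exact h _ hQ ((E_rot (cr c σ) (Q 0) (Q 1) (Q 2)).trans hE)

lemma IsoN_rot {c : Fin 3 → Fin 3 → Fin 3 → K} {σ : K →+* ℝ}
    {y : Fin 3 → ∀ v, Fin 2 → ℚ_[p v]} {P : Fin 3 → Fin 2 → ℝ}
    {P₀ : Fin 3 → Fin 2 → K} (h : rp P ∈ IsoN (rot c) σ τ (rp y) P₀) :
    P ∈ IsoN c σ τ y (rp (rp P₀)) := by
  obtain ⟨⟨h1, h1'⟩, W, hW, N, hN, h2⟩ := h
  refine ⟨⟨?_, ?_⟩, ?_⟩
  · intro i
    fin_cases i
    · exact h1 1
    · exact h1 2
    · exact h1 0
  · intro i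
    fin_cases i
    · exact h1' 1
    · exact h1' 2
    · exact h1' 0
  · have hN2 : NN y (rp (rp N)) := by
      have := NN_rp (NN_rp hN)
      rwa [rp3] at this
    refine ⟨rp ⁻¹' W, continuous_rp.continuousAt.preimage_mem_nhds hW, rp (rp N), hN2,
      fun Y hY => ?_⟩
    have := h2 _ (PtN_rot hY)
    intro i
    fin_cases i
    · exact this 1
    · exact this 2
    · exact this 0

/-- **the dichotomy at all smooth real points** -/
theorem dichotomyP (hso : SOrb) (hsr : SReal) [NumberField K] {c : Fin 3 → Fin 3 → Fin 3 → K}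
    (h : Nice c) :
    ∃ T : Set (Fin 3 → Fin 2 → K), T.Finite ∧
      (∀ P ∈ T, (∀ i, P i ≠ 0) ∧ E c (P 0) (P 1) (P 2) = 0) ∧
      ∀ (σ : K →+* ℝ) (ι : Type) [Finite ι] (p : ι → ℕ) [∀ v, Fact (p v).Prime]
        (τ : ∀ v, K →+* ℚ_[p v]) (y : Fin 3 → ∀ v, Fin 2 → ℚ_[p v]) (P : Fin 3 → Fin 2 → ℝ),
        (∀ i v, y i v ≠ 0) → (∀ i, P i ≠ 0) →
        E (cr c σ) (P 0) (P 1) (P 2) = 0 → ¬SingX (cr c σ) (P 0) (P 1) (P 2) →
        P ∈ ClN c σ τ y → P ∈ IntN c σ τ y ∨ ∃ P₀ ∈ T, P ∈ IsoN c σ τ y P₀ := by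
  obtain ⟨T₀, hf₀, h₀, h₀'⟩ := dichP hso hsr h
  obtain ⟨T₁, hf₁, h₁, h₁'⟩ := dichP hso hsr h.rot
  obtain ⟨T₂, hf₂, h₂, h₂'⟩ := dichP hso hsr h.rot.rot
  refine ⟨T₀ ∪ ((fun P => rp (rp P)) '' T₁) ∪ ((fun P => rp P) '' T₂),
    (hf₀.union (hf₁.image _)).union (hf₂.image _), ?_, ?_⟩
  · rintro P ((hP | ⟨P, hP, rfl⟩) | ⟨P, hP, rfl⟩)
    · exact h₀ P hP
    · obtain ⟨a, b⟩ := h₁ P hP
      refine ⟨fun i => ?_, (E_rot c (P 1) (P 2) (P 0)).symm.trans b⟩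
      fin_cases i
      · exact a 1
      · exact a 2
      · exact a 0
    · obtain ⟨a, b⟩ := h₂ P hP
      refine ⟨fun i => ?_, ?_⟩
      · fin_cases i
        · exact a 2
        · exact a 0
        · exact a 1
      · have e1 := E_rot (rot c) (P 1) (P 2) (P 0)
        have e2 := E_rot c (P 2) (P 0) (P 1)
        exact e2.symm.trans (e1.symm.trans b)
  · intro σ ι _ p _ τ y P hy hP hE hs hC
    have hE1 : E (cr (rot c) σ) (rp P 0) (rp P 1) (rp P 2) = 0 :=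
      (E_rot (cr c σ) (P 0) (P 1) (P 2)).trans hE
    have hE2 : E (cr (rot (rot c)) σ) (rp (rp P) 0) (rp (rp P) 1) (rp (rp P) 2) = 0 :=
      (E_rot (cr (rot c) σ) (rp P 0) (rp P 1) (rp P 2)).trans hE1
    have hP1 : ∀ i, rp P i ≠ 0 := by
      intro i
      fin_cases i
      · exact hP 2
      · exact hP 0
      · exact hP 1
    have hP2 : ∀ i, rp (rp P) i ≠ 0 := by
      intro i
      fin_cases i
      · exact hP 1
      · exact hP 2
      · exact hP 0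
    have hy1 : ∀ i v, rp y i v ≠ 0 := by
      intro i v
      fin_cases i
      · exact hy 2 v
      · exact hy 0 v
      · exact hy 1 v
    have hy2 : ∀ i v, rp (rp y) i v ≠ 0 := by
      intro i v
      fin_cases i
      · exact hy 1 v
      · exact hy 2 v
      · exact hy 0 v
    have single : ∀ (c : Fin 3 → Fin 3 → Fin 3 → ℝ) (x y z : Fin 2 → ℝ) (a : Fin 2),
        T3 c (mon x) (mon y) (dmon a z) ≠ 0 → ∃ e, PE c x y z e ≠ 0 := by
      intro c x y z a ha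
      refine ⟨Pi.single a 1, ?_⟩
      rw [T3_lin_single, Finset.sum_eq_single a (fun b _ hb => by
        rw [Pi.single_eq_of_ne hb, zero_mul]) (fun h => absurd (Finset.mem_univ _) h),
        Pi.single_eq_same, one_mul]
      exact ha
    have hcase : (∃ a, T3 (cr c σ) (dmon a (P 0)) (mon (P 1)) (mon (P 2)) ≠ 0) ∨
        (∃ a, T3 (cr c σ) (mon (P 0)) (dmon a (P 1)) (mon (P 2)) ≠ 0) ∨
        (∃ a, T3 (cr c σ) (mon (P 0)) (mon (P 1)) (dmon a (P 2)) ≠ 0) := by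
      by_contra hn
      push Not at hn
      exact hs ⟨hn.1, hn.2.1, hn.2.2⟩
    rcases hcase with ⟨a, ha⟩ | ⟨a, ha⟩ | ⟨a, ha⟩
    · -- the first variable
      have hd : T3 (cr (rot (rot c)) σ) (mon (rp (rp P) 0)) (mon (rp (rp P) 1))
          (dmon a (rp (rp P) 2)) ≠ 0 := by
        have e1 := T3_rot (cr (rot c) σ) (mon (P 2)) (dmon a (P 0)) (mon (P 1))
        have e2 := T3_rot (cr c σ) (dmon a (P 0)) (mon (P 1)) (mon (P 2))
        intro h0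
        exact ha (e2.symm.trans (e1.symm.trans h0))
      rcases h₂' σ ι p τ _ _ hy2 hP2 hE2 (single _ _ _ _ a hd) (ClN_rot.2 (ClN_rot.2 hC)) with
        h | ⟨P₀, h3, h4⟩
      · exact Or.inl (IntN_rot (IntN_rot h))
      · refine Or.inr ⟨rp P₀, Or.inr ⟨P₀, h3, rfl⟩, ?_⟩
        have := IsoN_rot (IsoN_rot h4)
        rwa [rp3] at this
    · -- the second variable
      have hd : T3 (cr (rot c) σ) (mon (rp P 0)) (mon (rp P 1)) (dmon a (rp P 2)) ≠ 0 := by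
        have e2 := T3_rot (cr c σ) (mon (P 0)) (dmon a (P 1)) (mon (P 2))
        intro h0
        exact ha (e2.symm.trans h0)
      rcases h₁' σ ι p τ _ _ hy1 hP1 hE1 (single _ _ _ _ a hd) (ClN_rot.2 hC) with
        h | ⟨P₀, h3, h4⟩
      · exact Or.inl (IntN_rot h)
      · exact Or.inr ⟨rp (rp P₀), Or.inl (Or.inr ⟨P₀, h3, rfl⟩), IsoN_rot h4⟩
    · rcases h₀' σ ι p τ y P hy hP hE (single _ _ _ _ a ha) hC with h | ⟨P₀, h3, h4⟩
      · exact Or.inl h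
      · exact Or.inr ⟨P₀, Or.inl (Or.inl h3), h4⟩

section topo

variable {c : Fin 3 → Fin 3 → Fin 3 → K} {σ : K →+* ℝ} {y : Fin 3 → ∀ v, Fin 2 → ℚ_[p v]}

lemma ClN_sc {P : Fin 3 → Fin 2 → ℝ} {d : Fin 3 → ℝ} (hd : ∀ i, d i ≠ 0)
    (h : P ∈ ClN c σ τ y) : sc d P ∈ ClN c σ τ y := by
  intro W hW N hN
  obtain ⟨Y, hY⟩ := h _ ((continuous_sc d).continuousAt.preimage_mem_nhds hW) N hN
  exact ⟨Y, pt_sc hd hY.1, hY.2⟩

lemma IntN_sc {P : Fin 3 → Fin 2 → ℝ} {d : Fin 3 → ℝ} (hd : ∀ i, d i ≠ 0)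
    (h : P ∈ IntN c σ τ y) : sc d P ∈ IntN c σ τ y := by
  obtain ⟨W, hW, h⟩ := h
  refine ⟨sc (fun i => (d i)⁻¹) ⁻¹' W, (continuous_sc _).continuousAt.preimage_mem_nhds
    (by rw [sc_inv hd]; exact hW), fun Q hQ hE => ?_⟩
  have h1 := h _ hQ (by rw [E_sc, hE, mul_zero])
  have h2 := ClN_sc hd h1
  rwa [sc_inv' hd] at h2

lemma isOpen_IntN : IsOpen (IntN c σ τ y) := by
  have : IntN c σ τ y = interior {Q | E (cr c σ) (Q 0) (Q 1) (Q 2) = 0 → Q ∈ ClN c σ τ y} := by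
    ext P
    rw [mem_interior_iff_mem_nhds]
    constructor
    · rintro ⟨W, hW, h⟩
      exact Filter.mem_of_superset hW h
    · intro h
      exact ⟨_, h, fun Q hQ => hQ⟩
  rw [this]
  exact isOpen_interior

lemma IntN_sub {P : Fin 3 → Fin 2 → ℝ} (h : P ∈ IntN c σ τ y)
    (hE : E (cr c σ) (P 0) (P 1) (P 2) = 0) : P ∈ ClN c σ τ y := by
  obtain ⟨W, hW, h⟩ := h
  exact h P (mem_of_mem_nhds hW) hE

lemma isClosed_ClN : IsClosed (ClN c σ τ y) := by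
  rw [← isOpen_compl_iff, isOpen_iff_mem_nhds]
  intro P hP
  simp only [ClN, Set.mem_compl_iff, Set.mem_ofPred_eq, not_forall, not_exists] at hP
  obtain ⟨W, hW, N, hN, h⟩ := hP
  refine Filter.mem_of_superset (interior_mem_nhds.2 hW) fun Q hQ hQC => ?_
  obtain ⟨Y, hY⟩ := hQC W (mem_interior_iff_mem_nhds.1 hQ) N hN
  exact h Y hY

/-- limits of interior points -/
theorem closed_IntN {P : Fin 3 → Fin 2 → ℝ} (hP : ∀ i, P i ≠ 0)
    (hd : P ∈ ClN c σ τ y → P ∈ IntN c σ τ y ∨ ∃ P₀ : Fin 3 → Fin 2 → K, P ∈ IsoN c σ τ y P₀)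
    (h : P ∈ closure {Q | Q ∈ IntN c σ τ y ∧ E (cr c σ) (Q 0) (Q 1) (Q 2) = 0 ∧
      ∀ i, Q i ≠ 0}) :
    P ∈ IntN c σ τ y := by
  have hC : P ∈ ClN c σ τ y := by
    rw [← isClosed_ClN.closure_eq]
    exact closure_mono (fun Q hQ => IntN_sub hQ.1 hQ.2.1) h
  rcases hd hC with h1 | ⟨P₀, ⟨hPP, -⟩, W, hW, N, hN, hWY⟩
  · exact h1
  · rw [mem_closure_iff_nhds] at h
    obtain ⟨Q, hQW, hQI, hQE, hQ0⟩ := h _ (interior_mem_nhds.2 hW)
    have hQC := IntN_sub hQI hQE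
    have hbr : ∀ i, br (Q i) (P i) = 0 := by
      intro i
      by_contra hne
      have hopen : IsOpen {R : Fin 3 → Fin 2 → ℝ | br (R i) (P i) ≠ 0} :=
        isOpen_ne_fun (continuous_br (continuous_apply i) continuous_const) continuous_const
      obtain ⟨Y, ⟨hY0, hYE, d, hd, hdY⟩, hYN⟩ := hQC (interior W ∩ {R | br (R i) (P i) ≠ 0})
        (Filter.inter_mem (isOpen_interior.mem_nhds hQW) (hopen.mem_nhds hne)) N hN
      have hY := hWY Y ⟨⟨hY0, hYE, d, hd, interior_subset hdY.1⟩, hYN⟩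
      obtain ⟨t, ht0, ht⟩ := hY i
      obtain ⟨s, hs0, hs⟩ := hPP i
      apply hdY.2
      have e1 : (fun a => d i * σ (Y i a)) = (d i * σ t) • fun a => σ (P₀ i a) := by
        funext a
        rw [ht]
        simp only [Pi.smul_apply, smul_eq_mul, map_mul]
        ring
      change br (fun a => d i * σ (Y i a)) (P i) = 0
      rw [e1, hs, br_smul_left, br_smul_right, br_self]
      ring
    choose t ht0 ht using fun i => (br_eq_zero_iff (hQ0 i) (hP i)).1 (hbr i)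
    have e : P = sc t Q := by
      funext i
      rw [ht i]
      rfl
    rw [e]
    exact IntN_sc ht0 hQI

/-- the cone over the smooth real points -/
def SS (c : Fin 3 → Fin 3 → Fin 3 → ℝ) : Set (Fin 3 → Fin 2 → ℝ) :=
  {Q | (∀ i, Q i ≠ 0) ∧ E c (Q 0) (Q 1) (Q 2) = 0 ∧ ¬SingX c (Q 0) (Q 1) (Q 2)}

/-- a connected component of the set of the smooth real points is contained in the closure -/
theorem component (hd : ∀ P ∈ SS (cr c σ), P ∈ ClN c σ τ y →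
      P ∈ IntN c σ τ y ∨ ∃ P₀ : Fin 3 → Fin 2 → K, P ∈ IsoN c σ τ y P₀)
    {P : Fin 3 → Fin 2 → ℝ} (hP : P ∈ SS (cr c σ)) (hPI : P ∈ IntN c σ τ y) :
    connectedComponentIn (SS (cr c σ)) P ⊆ ClN c σ τ y := by
  set O : Set (Fin 3 → Fin 2 → ℝ) := {Q | Q ∈ IntN c σ τ y ∧
    E (cr c σ) (Q 0) (Q 1) (Q 2) = 0 ∧ ∀ i, Q i ≠ 0} with hO
  have hsub := connectedComponentIn_subset (SS (cr c σ)) P
  have hpre : IsPreconnected (connectedComponentIn (SS (cr c σ)) P) :=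
    isPreconnected_connectedComponentIn
  have hPm : P ∈ connectedComponentIn (SS (cr c σ)) P := mem_connectedComponentIn hP
  rw [isPreconnected_iff_subset_of_disjoint] at hpre
  have hPO : P ∈ O := ⟨hPI, hP.2.1, hP.1⟩
  have hcov : connectedComponentIn (SS (cr c σ)) P ⊆ IntN c σ τ y ∪ (closure O)ᶜ := by
    intro Q hQ
    by_cases hQO : Q ∈ closure O
    · exact Or.inl (closed_IntN (hsub hQ).1 (hd Q (hsub hQ)) hQO)
    · exact Or.inr hQO
  have hdis : connectedComponentIn (SS (cr c σ)) P ∩ (IntN c σ τ y ∩ (closure O)ᶜ) = ∅ := by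
    rw [Set.eq_empty_iff_forall_notMem]
    rintro Q ⟨hQ, hQ1, hQ2⟩
    exact hQ2 (subset_closure ⟨hQ1, (hsub hQ).2.1, (hsub hQ).1⟩)
  rcases hpre _ _ isOpen_IntN isClosed_closure.isOpen_compl hcov hdis with h | h
  · intro Q hQ
    exact IntN_sub (h hQ) (hsub hQ).2.1
  · exact absurd (subset_closure hPO) (h hPm)

end topo

end Pool.Agent.N452.KR
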