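import Pool.Agent.N452.KR.Vert

/-!
# The closure with fixed p-adic part is open at smooth real points (project KR, helper452; the real
argument is that of helper279 in `W279/TriR/Open.lean`, `W279/TriR/Glob.lean`)
-/

set_option autoImplicit false

namespace Pool.Agent.N452.KR

open Pool.Agent.W279.Tri Pool.Agent.W279.TriR

variable {K : Type} [Field K] {ι : Type} {p : ι → ℕ} [∀ v, Fact (p v).Prime]
  {τ : ∀ v, K →+* ℚ_[p v]}

/-- a rational point which is near at the real place and at the finite places -/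
def PtN (c : Fin 3 → Fin 3 → Fin 3 → K) (σ : K →+* ℝ) (τ : ∀ v, K →+* ℚ_[p v])
    (W : Set (Fin 3 → Fin 2 → ℝ)) (N : Fin 3 → ∀ v, Set (Fin 2 → ℚ_[p v]))
    (Y : Fin 3 → Fin 2 → K) : Prop :=
  Pt c σ W Y ∧ ∀ i, In τ (N i) (Y i)

/-- the `N i v` are open neighbourhoods of the `y i v` -/
def NN (y : Fin 3 → ∀ v, Fin 2 → ℚ_[p v]) (N : Fin 3 → ∀ v, Set (Fin 2 → ℚ_[p v])) : Prop :=
  ∀ i v, IsOpen (N i v) ∧ y i v ∈ N i v

/-- the real points `Q` such that `(Q, y)` is in the closure of the rational points -/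
def ClN (c : Fin 3 → Fin 3 → Fin 3 → K) (σ : K →+* ℝ) (τ : ∀ v, K →+* ℚ_[p v])
    (y : Fin 3 → ∀ v, Fin 2 → ℚ_[p v]) : Set (Fin 3 → Fin 2 → ℝ) :=
  {Q | ∀ W ∈ nhds Q, ∀ N, NN y N → ∃ Y, PtN c σ τ W N Y}

/-- the interior points -/
def IntN (c : Fin 3 → Fin 3 → Fin 3 → K) (σ : K →+* ℝ) (τ : ∀ v, K →+* ℚ_[p v])
    (y : Fin 3 → ∀ v, Fin 2 → ℚ_[p v]) : Set (Fin 3 → Fin 2 → ℝ) :=
  {P | ∃ W ∈ nhds P, ∀ Q ∈ W, E (cr c σ) (Q 0) (Q 1) (Q 2) = 0 → Q ∈ ClN c σ τ y}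

/-- `(P, y)` is the rational point `P₀`, isolated -/
def IsoN (c : Fin 3 → Fin 3 → Fin 3 → K) (σ : K →+* ℝ) (τ : ∀ v, K →+* ℚ_[p v])
    (y : Fin 3 → ∀ v, Fin 2 → ℚ_[p v]) (P₀ : Fin 3 → Fin 2 → K) : Set (Fin 3 → Fin 2 → ℝ) :=
  {P | (Eqv P (fun i a => σ (P₀ i a)) ∧
      ∀ i v, ∃ t : ℚ_[p v], t ≠ 0 ∧ y i v = t • fun a => τ v (P₀ i a)) ∧
    ∃ W ∈ nhds P, ∃ N, NN y N ∧ ∀ Y, PtN c σ τ W N Y → Eqv Y P₀}

lemma NN.inter {y : Fin 3 → ∀ v, Fin 2 → ℚ_[p v]} {N N' : Fin 3 → ∀ v, Set (Fin 2 → ℚ_[p v])}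
    (h : NN y N) (h' : NN y N') : NN y (fun i v => N i v ∩ N' i v) := fun i v =>
  ⟨(h i v).1.inter (h' i v).1, (h i v).2, (h' i v).2⟩

lemma In.mono {N N' : ∀ v, Set (Fin 2 → ℚ_[p v])} {X : Fin 2 → K} (h : In τ N X)
    (hN : ∀ v, N v ⊆ N' v) : In τ N' X := fun v =>
  let ⟨a, ha, haN⟩ := h v
  ⟨a, ha, hN v haN⟩

lemma PtN.mono {c : Fin 3 → Fin 3 → Fin 3 → K} {σ : K →+* ℝ} {W W' : Set (Fin 3 → Fin 2 → ℝ)}
    {N N' : Fin 3 → ∀ v, Set (Fin 2 → ℚ_[p v])} {Y : Fin 3 → Fin 2 → K}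
    (h : PtN c σ τ W N Y) (hW : W ⊆ W') (hN : ∀ i v, N i v ⊆ N' i v) : PtN c σ τ W' N' Y :=
  ⟨h.1.mono hW, fun i => (h.2 i).mono (hN i)⟩

lemma PtN.smul {c : Fin 3 → Fin 3 → Fin 3 → K} {σ : K →+* ℝ} {W : Set (Fin 3 → Fin 2 → ℝ)}
    {N : Fin 3 → ∀ v, Set (Fin 2 → ℚ_[p v])} {Y Z : Fin 3 → Fin 2 → K}
    (h : PtN c σ τ W N Y) (hZ : ∀ i, ∃ t : K, t ≠ 0 ∧ Y i = t • Z i) : PtN c σ τ W N Z :=
  ⟨h.1.smul hZ, fun i => by
    obtain ⟨t, ht, e⟩ := hZ i
    exact (h.2 i).smul ht e⟩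

/-- **openness** -/
theorem local_openP (hso : SOrb) (hsr : SReal) [Finite ι] {c : Fin 3 → Fin 3 → Fin 3 → K}
    {σ : K →+* ℝ} {y : Fin 3 → ∀ v, Fin 2 → ℚ_[p v]} (hb0 : (Bad c).Finite)
    (hb1 : (Bad (sw c)).Finite) {P : Fin 3 → Fin 2 → ℝ} (hP : ∀ i, P i ≠ 0)
    (h0 : E (cr c σ) (P 0) (P 1) (P 2) = 0)
    (hder : ∃ e, PE (cr c σ) (P 0) (P 1) (P 2) e ≠ 0)
    (hcl : ∀ W ∈ nhds P, ∀ N, NN y N → ∃ Y, PtN c σ τ W N Y ∧
      (Good c (Y 0) ∨ Good (sw c) (Y 1))) :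
    P ∈ IntN c σ τ y := by
  obtain ⟨e, he⟩ := hder
  have h1 := PE_perp (hP 2) h0 he
  obtain ⟨δ, δ', hδ, hδ', hbox⟩ := exists_boxS (a₀ := P 0) (b₀ := perp (P 0)) (a₁ := P 1)
    (b₁ := perp (P 1)) (a₂ := P 2) (b₂ := perp (P 2)) h0 h1
  set δδ : Fin 3 → ℝ := ![δ, δ, δ'] with hδδ
  have hδδ0 : ∀ i, 0 < δδ i := by
    intro i
    fin_cases i
    · exact hδ
    · exact hδ
    · exact hδ'
  have hCh := Ch_mem hP hδδ0
  refine ⟨Ch P δδ, hCh, fun Q hQ hQE => ?_⟩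
  intro W' hW' N hN
  obtain ⟨Y, ⟨⟨hY0, hYE, d, hd, hdW⟩, hYN⟩, hYg⟩ := hcl _ hCh N hN
  have hYat := fun i => (Ch_at hP hdW i).of_smul (u := fun a => σ (Y i a)) (hd i)
  have hQat := Ch_at hP hQ
  set x : Fin 3 → ℝ := fun i => qc (P i) (Q i) / pc (P i) (Q i) with hx
  -- the parametrisation
  set Φ : (Fin 3 → ℝ) → Fin 3 → Fin 2 → ℝ := fun x i =>
    pc (P i) (Q i) • (P i + x i • perp (P i)) with hΦ
  have hΦc : Continuous Φ := by
    rw [hΦ]
    fun_prop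
  have hΦx : Φ x = Q := by
    funext i
    exact (frame_eq' (hP i) (hQ i).1).symm
  have hpre : Φ ⁻¹' W' ∈ nhds x := hΦc.continuousAt.preimage_mem_nhds (by rw [hΦx]; exact hW')
  obtain ⟨ε, hε, hball⟩ := Metric.mem_nhds_iff.1 hpre
  have hE0 : E (cr c σ) (P 0 + x 0 • perp (P 0)) (P 1 + x 1 • perp (P 1))
      (P 2 + x 2 • perp (P 2)) = 0 := by
    have e1 := hQE
    rw [frame_eq' (hP 0) (hQ 0).1, frame_eq' (hP 1) (hQ 1).1, frame_eq' (hP 2) (hQ 2).1,
      E_smul] at e1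
    have : pc (P 0) (Q 0) ^ 2 * pc (P 1) (Q 1) ^ 2 * pc (P 2) (Q 2) ^ 2 ≠ 0 :=
      mul_ne_zero (mul_ne_zero (pow_ne_zero 2 (hQ 0).1) (pow_ne_zero 2 (hQ 1).1))
        (pow_ne_zero 2 (hQ 2).1)
    exact (mul_eq_zero.1 e1).resolve_left this
  obtain ⟨X', Y', Z', x', y', z', hn, ⟨i0, i1, i2⟩, g1, g2, g3⟩ := fullP' hso hsr
    (br_perp (hP 0)) (br_perp (hP 1))
    (br_perp (hP 2)) hδ hδ' hbox hb0 hb1 ⟨hY0 0, hY0 1, hY0 2, hYE, hYat 0, hYat 1, hYat 2⟩
    (hdW 0).2 (hdW 1).2 (hdW 2).2.le hYg (fun i v => (hN i v).1) (hYN 0) (hYN 1) (hYN 2)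
    (hQ 0).2.le (hQ 1).2.le (hQ 2).2.le hE0 (show 0 < ε / 2 by linarith)
  obtain ⟨p, hp, hpe⟩ := hn.hx
  obtain ⟨q, hq, hqe⟩ := hn.hy
  obtain ⟨r, hr, hre⟩ := hn.hz
  refine ⟨![X', Y', Z'], ⟨?_, hn.hE, ?_⟩, ?_⟩
  · intro i
    fin_cases i
    · exact hn.hX
    · exact hn.hY
    · exact hn.hZ
  · refine ⟨![pc (P 0) (Q 0) * p⁻¹, pc (P 1) (Q 1) * q⁻¹, pc (P 2) (Q 2) * r⁻¹], ?_, ?_⟩
    · intro i
      fin_cases i
      · exact mul_ne_zero (hQ 0).1 (inv_ne_zero hp)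
      · exact mul_ne_zero (hQ 1).1 (inv_ne_zero hq)
      · exact mul_ne_zero (hQ 2).1 (inv_ne_zero hr)
    · have hmem : (![x', y', z'] : Fin 3 → ℝ) ∈ Metric.ball x ε := by
        rw [Metric.mem_ball, dist_pi_lt_iff hε]
        intro i
        rw [Real.dist_eq]
        fin_cases i
        · change |x' - x 0| < ε
          linarith
        · change |y' - x 1| < ε
          linarith
        · change |z' - x 2| < ε
          linarith
      have hmem' := hball hmem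
      have e : (fun i a => (![pc (P 0) (Q 0) * p⁻¹, pc (P 1) (Q 1) * q⁻¹,
          pc (P 2) (Q 2) * r⁻¹] : Fin 3 → ℝ) i * σ ((![X', Y', Z'] : Fin 3 → Fin 2 → K) i a)) =
          Φ ![x', y', z'] := by
        funext i a
        have key : ∀ {w : Fin 2 → ℝ} {s A : ℝ} {v : Fin 2 → ℝ}, s ≠ 0 → w = s • v →
            A * s⁻¹ * w a = A * v a := by
          intro w s A v hs hw
          rw [hw, Pi.smul_apply, smul_eq_mul]
          field_simp
        fin_cases i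
        · exact key hp hpe
        · exact key hq hqe
        · exact key hr hre
      rw [e]
      exact hmem'
  · intro i
    fin_cases i
    · exact i0
    · exact i1
    · exact i2

/-- the dichotomy when the derivative in the third variable is not zero -/
theorem dichP (hso : SOrb) (hsr : SReal) [NumberField K] {c : Fin 3 → Fin 3 → Fin 3 → K}
    (h : Nice c) :
    ∃ T : Set (Fin 3 → Fin 2 → K), T.Finite ∧
      (∀ P ∈ T, (∀ i, P i ≠ 0) ∧ E c (P 0) (P 1) (P 2) = 0) ∧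
      ∀ (σ : K →+* ℝ) (ι : Type) [Finite ι] (p : ι → ℕ) [∀ v, Fact (p v).Prime]
        (τ : ∀ v, K →+* ℚ_[p v]) (y : Fin 3 → ∀ v, Fin 2 → ℚ_[p v]) (P : Fin 3 → Fin 2 → ℝ),
        (∀ i v, y i v ≠ 0) → (∀ i, P i ≠ 0) →
        E (cr c σ) (P 0) (P 1) (P 2) = 0 → (∃ e, PE (cr c σ) (P 0) (P 1) (P 2) e ≠ 0) →
        P ∈ ClN c σ τ y → P ∈ IntN c σ τ y ∨ ∃ P₀ ∈ T, P ∈ IsoN c σ τ y P₀ := by
  classical
  have hB0 := h.bad0
  have hB1 := h.bad1
  obtain ⟨T, hT, hT1, hT2⟩ := exists_T h.n2 hB0 hB1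
  refine ⟨T, hT, hT1, fun σ ι _ p _ τ y x hy0 hx hxE hder hxC => ?_⟩
  have hnrm : ∀ U N, ∀ z, PtN c σ τ U N z →
      PtN c σ τ U N ![nrm (z 0), nrm (z 1), z 2] := by
    intro U N z hz
    refine hz.smul fun i => ?_
    fin_cases i
    · exact nrm_spec (hz.1.1 0)
    · exact nrm_spec (hz.1.1 1)
    · exact ⟨1, one_ne_zero, (one_smul _ _).symm⟩
  by_cases hA : ∀ U ∈ nhds x, ∀ N, NN y N → ∃ z, PtN c σ τ U N z ∧
      (nrm (z 0) ∉ Bad c ∨ nrm (z 1) ∉ Bad (sw c))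
  · left
    refine local_openP hso hsr hB0 hB1 hx hxE hder fun W hW N hN => ?_
    obtain ⟨z, hz, hg⟩ := hA W hW N hN
    exact ⟨_, hnrm W N z hz, hg.imp good_of_not_bad good_of_not_bad⟩
  · right
    push Not at hA
    obtain ⟨U₀, hU₀, N₀, hN₀, hA⟩ := hA
    -- the condition that `(x, y)` is the point `P`
    obtain ⟨Same, hSame⟩ : ∃ Same : (Fin 3 → Fin 2 → K) → Prop, ∀ P, Same P ↔
        (Eqv x (fun i a => σ (P i a)) ∧
          ∀ i v, ∃ t : ℚ_[p v], t ≠ 0 ∧ y i v = t • fun a => τ v (P i a)) :=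
      ⟨_, fun P => Iff.rfl⟩
    set T' := {P ∈ T | ¬Same P} with hT'
    have hT'f : T'.Finite := hT.subset fun P hP => hP.1
    have hsep : ∀ P ∈ T', ∃ V ∈ nhds x, ∃ N, NN y N ∧ ∀ z, PtN c σ τ V N z → ¬Eqv z P := by
      rintro P ⟨hPT, hPx⟩
      rw [hSame, not_and_or] at hPx
      rcases hPx with hPx | hPx
      · have : ∃ i, br (x i) (fun a => σ (P i a)) ≠ 0 := by
          by_contra hn
          push Not at hn
          apply hPx
          intro i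
          have h1 := hn i
          rw [br_swap, neg_eq_zero] at h1
          exact (br_eq_zero_iff (map_ne σ ((hT1 P hPT).1 i)) (hx i)).1 h1
        obtain ⟨i, hi⟩ := this
        refine ⟨{w | br (w i) (fun a => σ (P i a)) ≠ 0}, ?_, fun _ _ => Set.univ,
          fun i v => ⟨isOpen_univ, trivial⟩, ?_⟩
        · refine IsOpen.mem_nhds ?_ hi
          exact isOpen_ne_fun (continuous_br (continuous_apply i) continuous_const)
            continuous_const
        · rintro z ⟨⟨-, -, d, hd, hdy⟩, -⟩ hzP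
          obtain ⟨t, ht0, ht⟩ := hzP i
          apply hdy
          have e : (fun a => d i * σ (z i a)) = (d i * σ t) • fun a => σ (P i a) := by
            funext a
            rw [ht]
            simp only [Pi.smul_apply, smul_eq_mul, map_mul]
            ring
          change br (fun a => d i * σ (z i a)) (fun a => σ (P i a)) = 0
          rw [e, br_smul_left, br_self, mul_zero]
      · have : ∃ i v, br (y i v) (fun a => τ v (P i a)) ≠ 0 := by
          by_contra hn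
          push Not at hn
          apply hPx
          intro i v
          have h1 := hn i v
          rw [br_swap, neg_eq_zero] at h1
          exact (br_eq_zero_iff (map_ne (τ v) ((hT1 P hPT).1 i)) (hy0 i v)).1 h1
        obtain ⟨i, v, hiv⟩ := this
        refine ⟨Set.univ, Filter.univ_mem,
          fun j w => {u | ∀ (hj : j = i) (hw : w = v), br u (fun a => τ w (P i a)) ≠ 0}, ?_, ?_⟩
        · intro j w
          by_cases hjw : j = i ∧ w = v
          · obtain ⟨rfl, rfl⟩ := hjw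
            constructor
            · have : {u : Fin 2 → ℚ_[p w] | ∀ (_ : j = j) (_ : w = w),
                  br u (fun a => τ w (P j a)) ≠ 0} = {u | br u (fun a => τ w (P j a)) ≠ 0} := by
                ext u
                simp
              beta_reduce
              rw [this]
              exact isOpen_ne_fun (continuous_br continuous_id continuous_const) continuous_const
            · intro _ _
              exact hiv
          · have : {u : Fin 2 → ℚ_[p w] | ∀ (_ : j = i) (_ : w = v),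
                br u (fun a => τ w (P i a)) ≠ 0} = Set.univ := by
              ext u
              simp only [Set.mem_ofPred_eq, Set.mem_univ, iff_true]
              intro h1 h2
              exact absurd ⟨h1, h2⟩ hjw
            constructor
            · beta_reduce
              rw [this]; exact isOpen_univ
            · intro h1 h2
              exact absurd ⟨h1, h2⟩ hjw
        · rintro z ⟨-, hzN⟩ hzP
          obtain ⟨t, ht0, ht⟩ := hzP i
          obtain ⟨d, hd, hdy⟩ := hzN i v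
          apply hdy rfl rfl
          have e : (fun a => d * τ v (z i a)) = (d * τ v t) • fun a => τ v (P i a) := by
            funext a
            rw [ht]
            simp only [Pi.smul_apply, smul_eq_mul, map_mul]
            ring
          rw [e, br_smul_left, br_self, mul_zero]
    choose! V hV1 N' hN' hV2 using hsep
    set U₁ := U₀ ∩ ⋂ P ∈ T', V P with hU₁
    have hU₁n : U₁ ∈ nhds x :=
      Filter.inter_mem hU₀ ((Filter.biInter_mem hT'f).2 hV1)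
    obtain ⟨N₁, hN₁⟩ : ∃ N₁ : Fin 3 → ∀ v, Set (Fin 2 → ℚ_[p v]),
        N₁ = fun i v => N₀ i v ∩ ⋂ P ∈ T', N' P i v := ⟨_, rfl⟩
    have hN₁n : NN y N₁ := by
      intro i v
      rw [hN₁]
      refine ⟨(hN₀ i v).1.inter (hT'f.isOpen_biInter fun P hP => (hN' P hP i v).1),
        (hN₀ i v).2, ?_⟩
      rw [Set.mem_iInter₂]
      exact fun P hP => (hN' P hP i v).2
    have hsub0 : ∀ i v, N₁ i v ⊆ N₀ i v := by
      intro i v
      rw [hN₁]
      exact Set.inter_subset_left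
    have hsub1 : ∀ P ∈ T', ∀ i v, N₁ i v ⊆ N' P i v := by
      intro P hP i v
      rw [hN₁]
      exact Set.inter_subset_right.trans (Set.biInter_subset_of_mem hP)
    have hall : ∀ z, PtN c σ τ U₁ N₁ z → ∃ P ∈ T, Same P ∧ Eqv z P := by
      intro z hz
      have h0 := hA z (hz.mono Set.inter_subset_left hsub0)
      obtain ⟨P, hPT, hzP⟩ := hT2 z hz.1.1 hz.1.2.1 h0.1 h0.2
      by_cases hPx : Same P
      · exact ⟨P, hPT, hPx, hzP⟩
      · have hPT' : P ∈ T' := ⟨hPT, hPx⟩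
        exact absurd hzP (hV2 P hPT' z (hz.mono (Set.inter_subset_right.trans
          (Set.biInter_subset_of_mem hPT')) (hsub1 P hPT')))
    obtain ⟨z, hz⟩ := hxC U₁ hU₁n N₁ hN₁n
    obtain ⟨P₀, hP₀, hxP₀, -⟩ := hall z hz
    have hxP₀' := (hSame P₀).1 hxP₀
    refine ⟨P₀, hP₀, hxP₀', U₁, hU₁n, N₁, hN₁n, fun z hz => ?_⟩
    obtain ⟨P, hP, hxP, hzP⟩ := hall z hz
    exact eqv_trans hzP (eqv_of_map (σ := σ) (hT1 P hP).1 (hT1 P₀ hP₀).1
      (eqv_trans (Pool.Agent.W279.Tri.Eqv.symm ((hSame P).1 hxP).1) hxP₀'.1))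

end Pool.Agent.N452.KR
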