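import Pool.Agent.N452.KR.Defs
import Pool.Agent.W279.TriR.Clopen

/-!
# Moving along the real part of a fibre without moving in the p-adic part (project KR, helper452;
the real argument is that of helper279 in `W279/TriR/Vert.lean`, `W279/TriR/Open.lean`)
-/

set_option autoImplicit false

namespace Pool.Agent.N452.KR

open Pool.Agent.W279.Tri Pool.Agent.W279.TriR

section inn

variable {K ι : Type} [Field K] {L : ι → Type} [∀ v, Field (L v)] {τ : ∀ v, K →+* L v}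
  {N : ∀ v, Set (Fin 2 → L v)}

lemma In.smul {X X' : Fin 2 → K} {t : K} (ht : t ≠ 0) (h : In τ N X) (hX : X = t • X') :
    In τ N X' := by
  intro v
  obtain ⟨a, ha, haN⟩ := h v
  refine ⟨a * τ v t, mul_ne_zero ha ((map_ne_zero (τ v)).2 ht), ?_⟩
  convert haN using 1
  funext i
  rw [hX, Pi.smul_apply, smul_eq_mul, map_mul, mul_assoc]

end inn

variable {K : Type} [Field K] {ι : Type} [Finite ι] {p : ι → ℕ} [∀ v, Fact (p v).Prime]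
  {τ : ∀ v, K →+* ℚ_[p v]}

/-- the orbit fills the vertical segment, with points whose second class is good and which are
near to the given one at the finite places -/
theorem vertP (hso : SOrb) (hsr : SReal) {c : Fin 3 → Fin 3 → Fin 3 → K} {σ : K →+* ℝ}
    {a₀ b₀ a₁ b₁ a₂ b₂ : Fin 2 → ℝ}
    (h₁ : br a₁ b₁ ≠ 0) (h₂ : br a₂ b₂ ≠ 0) {δ δ' : ℝ} (hδ : 0 < δ) (hδ' : 0 < δ')
    (hbox : BoxS (cr c σ) a₀ b₀ a₁ b₁ a₂ b₂ δ δ') (hbad : (Bad (sw c)).Finite)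
    {X Y Z : Fin 2 → K} {x y z : ℝ} (hP : RP c σ a₀ b₀ a₁ b₁ a₂ b₂ X Y Z x y z) (hx : |x| ≤ δ)
    (hy : |y| < δ) (hz : |z| ≤ δ') (hg : Good c X)
    {N₁ N₂ : ∀ v, Set (Fin 2 → ℚ_[p v])} (hN₁ : ∀ v, IsOpen (N₁ v)) (hN₂ : ∀ v, IsOpen (N₂ v))
    (hY : In τ N₁ Y) (hZ : In τ N₂ Z) {t ε : ℝ} (ht : |t| ≤ δ) (hε : 0 < ε) :
    ∃ (Y' Z' : Fin 2 → K) (y' z' : ℝ), RP c σ a₀ b₀ a₁ b₁ a₂ b₂ X Y' Z' x y' z' ∧
      |y' - t| ≤ ε ∧ |y'| < δ ∧ |z'| ≤ δ' ∧ Good (sw c) Y' ∧ In τ N₁ Y' ∧ In τ N₂ Z' := by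
  obtain ⟨U₀, V₀, hO, hU0, hV0⟩ := hg.2 Y Z hP.hY hP.hZ hP.hE
  obtain ⟨b, hb, hbj⟩ := hso K _ U₀ V₀ hO ι p τ (fun v => hg.1.sm (τ v)) N₁ N₂ hN₁ hN₂
    (by rw [hU0]; exact hY) (by rw [hV0]; exact hZ)
  have hRO := hsr K _ U₀ V₀ hO σ (hg.1.sm σ) b hb
  obtain ⟨U, hU⟩ : ∃ U : ℕ → Fin 2 → K, U = fun n => U₀ (b * n) := ⟨_, rfl⟩
  obtain ⟨V, hV⟩ : ∃ V : ℕ → Fin 2 → K, V = fun n => V₀ (b * n) := ⟨_, rfl⟩
  have hUn : ∀ n, U₀ (b * n) = U n := fun n => by rw [hU]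
  have hVn : ∀ n, V₀ (b * n) = V n := fun n => by rw [hV]
  simp only [hUn, hVn] at hRO hbj
  have hU0' : U 0 = Y := by rw [hU]; simpa using hU0
  have hV0' : V 0 = Z := by rw [hV]; simpa using hV0
  obtain ⟨q₀, hp, hpe⟩ := hP.hx
  have hgf : (fun j k => σ (fib c X j k)) = fib (cr c σ) (q₀ • (a₀ + x • b₀)) := by
    rw [fib_map', hpe]
    rfl
  rw [hgf] at hRO
  -- roots
  have hroot : ∀ y z : ℝ, |y| ≤ δ → |z| ≤ δ' →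
      ff (fm (fib (cr c σ) (q₀ • (a₀ + x • b₀))) a₁ b₁ a₂ b₂) y z = 0 →
      |z| ≤ δ' / 2 ∧ hh (fm (fib (cr c σ) (q₀ • (a₀ + x • b₀))) a₁ b₁ a₂ b₂) y z z ≠ 0 := by
    intro y z hy hz h0
    rw [← G_frame, G_fib, E_smul_one] at h0
    have h1 := (mul_eq_zero.1 h0).resolve_left (pow_ne_zero 2 hp)
    obtain ⟨r1, r2⟩ := hbox.root x y z hx hy hz h1
    refine ⟨r1, ?_⟩
    rw [← Pv_frame, ← PE_fib, PE_smul_one]
    exact mul_ne_zero (pow_ne_zero 2 hp) r2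
  have hN0 : Near a₁ b₁ a₂ b₂ (fun n a => σ (U n a)) (fun n a => σ (V n a)) 0 y z := by
    constructor
    · change At a₁ b₁ (fun a => σ (U 0 a)) y
      rw [hU0']
      exact hP.hy
    · change At a₂ b₂ (fun a => σ (V 0 a)) z
      rw [hV0']
      exact hP.hz
  -- the bad values
  set Bd : Set ℝ := ⋃ w ∈ Bad (sw c), {s | At a₁ b₁ (fun i => σ (w i)) s} with hBd
  have hBdf : Bd.Finite := by
    refine hbad.biUnion fun w _ => Set.Subsingleton.finite ?_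
    intro s hs s' hs'
    exact (At.unique h₁ hs hs').symm
  set I : Set ℝ := Set.Ioo (max (t - ε) (-δ)) (min (t + ε) δ) with hI
  have hIne : max (t - ε) (-δ) < min (t + ε) δ := by
    have := abs_le.1 ht
    rw [max_lt_iff, lt_min_iff, lt_min_iff]
    refine ⟨⟨?_, ?_⟩, ?_, ?_⟩ <;> linarith
  obtain ⟨s, hsI, hsB⟩ := ((Set.Ioo_infinite hIne).sdiff hBdf).nonempty
  have hopen : IsOpen (I \ Bd) := isOpen_Ioo.sdiff hBdf.isClosed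
  obtain ⟨ρ, hρ, hball⟩ := Metric.isOpen_iff.1 hopen s ⟨hsI, hsB⟩
  have hsδ : |s| ≤ δ := by
    rw [abs_le]
    exact ⟨((le_max_right _ _).trans_lt hsI.1).le, (hsI.2.trans_le (min_le_right _ _)).le⟩
  obtain ⟨n, y', z', hn, h3, h4⟩ := hRO.fill h₁ h₂ hδ' hroot hN0 hy hz hsδ
    (show 0 < ρ / 2 by linarith)
  obtain ⟨hy'I, hy'B⟩ := hball (show y' ∈ Metric.ball s ρ by
    rw [Metric.mem_ball, Real.dist_eq]; linarith)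
  have hOU : U n ≠ 0 := by rw [hU]; exact hO.hU _
  have hOV : V n ≠ 0 := by rw [hV]; exact hO.hV _
  obtain ⟨q, hq, hqe⟩ := nrm_spec hOU
  have hAt' : At a₁ b₁ (fun i => σ (nrm (U n) i)) y' := hn.1.map_smul σ hq hqe
  have hgood : Good (sw c) (nrm (U n)) := by
    refine good_of_not_bad fun hb => hy'B ?_
    rw [hBd, Set.mem_iUnion₂]
    exact ⟨_, hb, hAt'⟩
  have hnn : nrm (U n) ≠ 0 := by
    intro h0
    apply hOU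
    rw [hqe, h0, smul_zero]
  refine ⟨nrm (U n), V n, y', z', ⟨hP.hX, hnn, hOV, ?_, hP.hx, hAt', hn.2⟩, ?_, ?_, h4,
    hgood, (hbj n).1.smul hq hqe, (hbj n).2⟩
  · have e := hO.G_eq_zero (b * n)
    rw [hUn, hVn, G_fib] at e
    have e2 := E_smul c 1 q 1 X (nrm (U n)) (V n)
    rw [one_smul, one_smul, ← hqe, e] at e2
    have e3 : (1 : K) ^ 2 * q ^ 2 * 1 ^ 2 ≠ 0 := by
      simp [hq]
    exact (mul_eq_zero.1 e2.symm).resolve_left e3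
  · rw [abs_le]
    have a1 := (le_max_left _ _).trans_lt hy'I.1
    have a2 := hy'I.2.trans_le (min_le_left _ _)
    constructor <;> linarith
  · rw [abs_lt]
    exact ⟨(le_max_right _ _).trans_lt hy'I.1, hy'I.2.trans_le (min_le_right _ _)⟩

/-- rational points near to the given one at the finite places are dense over the square -/
theorem fullP (hso : SOrb) (hsr : SReal) {c : Fin 3 → Fin 3 → Fin 3 → K} {σ : K →+* ℝ}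
    {a₀ b₀ a₁ b₁ a₂ b₂ : Fin 2 → ℝ}
    (h₀ : br a₀ b₀ ≠ 0) (h₁ : br a₁ b₁ ≠ 0) (h₂ : br a₂ b₂ ≠ 0) {δ δ' : ℝ} (hδ : 0 < δ)
    (hδ' : 0 < δ') (hbox : BoxS (cr c σ) a₀ b₀ a₁ b₁ a₂ b₂ δ δ') (hb0 : (Bad c).Finite)
    (hb1 : (Bad (sw c)).Finite) {X Y Z : Fin 2 → K} {x y z : ℝ}
    (hP : RP c σ a₀ b₀ a₁ b₁ a₂ b₂ X Y Z x y z) (hx : |x| < δ)
    (hy : |y| < δ) (hz : |z| ≤ δ') (hg : Good c X ∨ Good (sw c) Y)
    {N : Fin 3 → ∀ v, Set (Fin 2 → ℚ_[p v])} (hN : ∀ i v, IsOpen (N i v))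
    (hX : In τ (N 0) X) (hY : In τ (N 1) Y) (hZ : In τ (N 2) Z) {s t ε : ℝ} (hs : |s| ≤ δ)
    (ht : |t| ≤ δ) (hε : 0 < ε) :
    ∃ (X' Y' Z' : Fin 2 → K) (x' y' z' : ℝ), RP c σ a₀ b₀ a₁ b₁ a₂ b₂ X' Y' Z' x' y' z' ∧
      (In τ (N 0) X' ∧ In τ (N 1) Y' ∧ In τ (N 2) Z') ∧
      |x' - s| ≤ ε ∧ |y' - t| ≤ ε ∧ |x'| ≤ δ ∧ |y'| ≤ δ ∧ |z'| ≤ δ' := by
  have hbs : BoxS (cr (sw c) σ) a₁ b₁ a₀ b₀ a₂ b₂ δ δ' := hbox.swap
  rcases hg with hg | hg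
  · obtain ⟨Y', Z', y', z', hP', hyt, hyδ, hzδ, hg', hY', hZ'⟩ :=
      vertP hso hsr h₁ h₂ hδ hδ' hbox hb1 hP hx.le hy hz hg (hN 1) (hN 2) hY hZ ht hε
    obtain ⟨X', Z'', x', z'', hP'', hxs, hxδ, hzδ', -, hX', hZ''⟩ :=
      vertP hso hsr h₀ h₂ hδ hδ' hbs hb0 hP'.swap hyδ.le hx hzδ hg' (hN 0) (hN 2) hX hZ' hs hε
    exact ⟨X', Y', Z'', x', y', z'', hP''.swap, ⟨hX', hY', hZ''⟩, hxs, hyt, hxδ.le, hyδ.le, hzδ'⟩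
  · obtain ⟨X', Z', x', z', hP', hxs, hxδ, hzδ, hg', hX', hZ'⟩ :=
      vertP hso hsr h₀ h₂ hδ hδ' hbs hb0 hP.swap hy.le hx hz hg (hN 0) (hN 2) hX hZ hs hε
    obtain ⟨Y', Z'', y', z'', hP'', hyt, hyδ, hzδ', -, hY', hZ''⟩ :=
      vertP hso hsr h₁ h₂ hδ hδ' hbox hb1 hP'.swap hxδ.le hy hzδ hg' (hN 1) (hN 2) hY hZ' ht hε
    exact ⟨X', Y', Z'', x', y', z'', hP'', ⟨hX', hY', hZ''⟩, hxs, hyt, hxδ.le, hyδ.le, hzδ'⟩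

/-- the same, for the points of the surface over the square -/
theorem fullP' (hso : SOrb) (hsr : SReal) {c : Fin 3 → Fin 3 → Fin 3 → K} {σ : K →+* ℝ}
    {a₀ b₀ a₁ b₁ a₂ b₂ : Fin 2 → ℝ}
    (h₀ : br a₀ b₀ ≠ 0) (h₁ : br a₁ b₁ ≠ 0) (h₂ : br a₂ b₂ ≠ 0) {δ δ' : ℝ} (hδ : 0 < δ)
    (hδ' : 0 < δ') (hbox : BoxS (cr c σ) a₀ b₀ a₁ b₁ a₂ b₂ δ δ') (hb0 : (Bad c).Finite)
    (hb1 : (Bad (sw c)).Finite) {X Y Z : Fin 2 → K} {x y z : ℝ}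
    (hP : RP c σ a₀ b₀ a₁ b₁ a₂ b₂ X Y Z x y z) (hx : |x| < δ)
    (hy : |y| < δ) (hz : |z| ≤ δ') (hg : Good c X ∨ Good (sw c) Y)
    {N : Fin 3 → ∀ v, Set (Fin 2 → ℚ_[p v])} (hN : ∀ i v, IsOpen (N i v))
    (hX : In τ (N 0) X) (hY : In τ (N 1) Y) (hZ : In τ (N 2) Z) {s t w ε : ℝ} (hs : |s| ≤ δ)
    (ht : |t| ≤ δ) (hw : |w| ≤ δ')
    (h0 : E (cr c σ) (a₀ + s • b₀) (a₁ + t • b₁) (a₂ + w • b₂) = 0) (hε : 0 < ε) :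
    ∃ (X' Y' Z' : Fin 2 → K) (x' y' z' : ℝ), RP c σ a₀ b₀ a₁ b₁ a₂ b₂ X' Y' Z' x' y' z' ∧
      (In τ (N 0) X' ∧ In τ (N 1) Y' ∧ In τ (N 2) Z') ∧
      |x' - s| ≤ ε ∧ |y' - t| ≤ ε ∧ |z' - w| ≤ ε := by
  set O : Set (ℝ × ℝ × ℝ) := {q | ∃ X Y Z : Fin 2 → K,
    RP c σ a₀ b₀ a₁ b₁ a₂ b₂ X Y Z q.1 q.2.1 q.2.2 ∧
      (In τ (N 0) X ∧ In τ (N 1) Y ∧ In τ (N 2) Z)} with hO
  have hOf : ∀ q ∈ closure O,
      E (cr c σ) (a₀ + q.1 • b₀) (a₁ + q.2.1 • b₁) (a₂ + q.2.2 • b₂) = 0 := by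
    have h1 : IsClosed {q : ℝ × ℝ × ℝ |
        E (cr c σ) (a₀ + q.1 • b₀) (a₁ + q.2.1 • b₁) (a₂ + q.2.2 • b₂) = 0} :=
      isClosed_eq (continuous_E _ (by fun_prop) (by fun_prop) (by fun_prop)) continuous_const
    have h2 : O ⊆ {q : ℝ × ℝ × ℝ |
        E (cr c σ) (a₀ + q.1 • b₀) (a₁ + q.2.1 • b₁) (a₂ + q.2.2 • b₂) = 0} := by
      rintro q ⟨X, Y, Z, hn, -⟩
      exact hn.E0
    intro q hq
    exact closure_minimal h2 h1 hq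
  set T : Set (ℝ × ℝ × ℝ) := closure O ∩
    (Set.Icc (-δ) δ ×ˢ (Set.Icc (-δ) δ ×ˢ Set.Icc (-δ') δ')) with hT
  have hTc : IsCompact T :=
    (isCompact_Icc.prod (isCompact_Icc.prod isCompact_Icc)).inter_left isClosed_closure
  set S : Set (ℝ × ℝ) := (fun q : ℝ × ℝ × ℝ => (q.1, q.2.1)) '' T with hS
  have hSc : IsClosed S := (hTc.image (by fun_prop)).isClosed
  have hst : (s, t) ∈ S := by
    rw [← hSc.closure_eq, Metric.mem_closure_iff]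
    intro ε hε
    obtain ⟨X', Y', Z', x', y', z', hn, hin, g1, g2, g3, g4, g5⟩ := fullP hso hsr h₀ h₁ h₂ hδ hδ'
      hbox hb0 hb1 hP hx hy hz hg hN hX hY hZ hs ht (show 0 < ε / 2 by linarith)
    refine ⟨(x', y'), ⟨(x', y', z'), ⟨subset_closure ⟨X', Y', Z', hn, hin⟩, abs_le.1 g3,
      abs_le.1 g4, abs_le.1 g5⟩, rfl⟩, ?_⟩
    rw [dist_comm, Prod.dist_eq, max_lt_iff, Real.dist_eq, Real.dist_eq]
    constructor <;> linarith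
  obtain ⟨⟨s', t', w'⟩, ⟨hcl, k1, k2, k3⟩, heq⟩ := hst
  simp only [Prod.mk.injEq] at heq
  obtain ⟨rfl, rfl⟩ := heq
  have hw' : w = w' := hbox.uniq s' t' w w' hs ht hw (abs_le.2 k3) h0 (hOf _ hcl)
  subst hw'
  rw [Metric.mem_closure_iff] at hcl
  obtain ⟨⟨x', y', z'⟩, ⟨X', Y', Z', hn, hin⟩, hd⟩ := hcl ε hε
  rw [dist_comm, Prod.dist_eq, Prod.dist_eq, max_lt_iff, max_lt_iff, Real.dist_eq, Real.dist_eq,
    Real.dist_eq] at hd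
  exact ⟨X', Y', Z', x', y', z', hn, hin, hd.1.le, hd.2.1.le, hd.2.2.le⟩

end Pool.Agent.N452.KR
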